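import Pool.Agent.Helper42.LS.Defs

/-!
# Module HL of the LS project: the height of a quotient as a sum of local terms
-/

namespace Pool.Agent.Helper42.LS

theorem hl_log_nat (n : ℕ) (T : Finset ℕ) (hTp : ∀ p ∈ T, p.Prime)
    (hT : n.primeFactors ⊆ T) :
    Real.log (n : ℝ) = ∑ p ∈ T, (padicValNat p n : ℝ) * Real.log (p : ℝ) := by
  rw [Real.log_nat_eq_sum_factorization]
  rw [Finsupp.sum_of_support_subset (s := T) n.factorization (by simpa using hT)]
  · apply Finset.sum_congr rfl
    intro p hp
    rw [Nat.factorization_def n (hTp p hp)]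
  · intro p hp
    simp

theorem hl_log_nr {p : ℕ} {q : ℚ} (hq : q ≠ 0) :
    Real.log (nr p q) = -(padicValRat p q : ℝ) * Real.log p := by
  unfold nr
  rw [padicNorm.eq_zpow_of_nonzero hq]
  push_cast
  rw [Real.log_zpow]
  push_cast
  ring

theorem hl_mul {p : ℕ} (hp : p.Prime) (a b : ℚ) : nr p (a * b) = nr p a * nr p b := by
  have := Fact.mk hp
  unfold nr
  rw [padicNorm.mul]
  push_cast
  rfl

/-- product formula -/
theorem hl_prod {q : ℚ} (hq : q ≠ 0) (T : Finset ℕ) (hTp : ∀ p ∈ T, p.Prime)
    (hT : ∀ p : ℕ, p.Prime → p ∉ T → nr p q = 1) :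
    Real.log |(q : ℝ)| + ∑ p ∈ T, Real.log (nr p q) = 0 := by
  classical
  set T' : Finset ℕ := T ∪ (q.num.natAbs.primeFactors ∪ q.den.primeFactors) with hT'
  have hT'p : ∀ p ∈ T', p.Prime := by
    intro p hp
    rw [hT', Finset.mem_union, Finset.mem_union] at hp
    rcases hp with hp | hp | hp
    · exact hTp p hp
    · exact Nat.prime_of_mem_primeFactors hp
    · exact Nat.prime_of_mem_primeFactors hp
  have hsum : ∑ p ∈ T, Real.log (nr p q) = ∑ p ∈ T', Real.log (nr p q) := by
    apply Finset.sum_subset (Finset.subset_union_left)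
    intro p hp hpT
    rw [hT p (hT'p p hp) hpT, Real.log_one]
  have hnum : q.num ≠ 0 := Rat.num_ne_zero.mpr hq
  have h1 := hl_log_nat q.num.natAbs T' hT'p
    (Finset.subset_union_left.trans Finset.subset_union_right)
  have h2 := hl_log_nat q.den T' hT'p
    (Finset.subset_union_right.trans Finset.subset_union_right)
  have habs : Real.log |(q : ℝ)| = Real.log (q.num.natAbs : ℝ) - Real.log (q.den : ℝ) := by
    have hcast : (q : ℝ) = (q.num : ℝ) / (q.den : ℝ) := by
      exact_mod_cast (Rat.num_div_den q).symm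
    rw [hcast, abs_div, Real.log_div]
    · congr 2
      · rw [← Int.cast_abs, Int.abs_eq_natAbs, Int.cast_natCast]
      · exact abs_of_nonneg (by positivity)
    · exact abs_ne_zero.mpr (by exact_mod_cast hnum)
    · exact abs_ne_zero.mpr (by exact_mod_cast q.den_nz)
  rw [hsum, habs, h1, h2, ← Finset.sum_sub_distrib, ← Finset.sum_add_distrib]
  apply Finset.sum_eq_zero
  intro p hp
  have := Fact.mk (hT'p p hp)
  rw [hl_log_nr hq]
  have : padicValRat p q = (padicValNat p q.num.natAbs : ℤ) - (padicValNat p q.den : ℤ) := by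
    rw [padicValRat_def]
    rfl
  rw [this, Int.cast_sub, Int.cast_natCast, Int.cast_natCast]
  ring

/-- HL -/
theorem st_HL : ST_HL := by
  intro u v hv T hTp hT
  set q : ℚ := u / v with hq
  have hb : (q.den : ℚ) ≠ 0 := by exact_mod_cast q.den_nz
  set lam : ℚ := v / q.den with hlam
  have hlam0 : lam ≠ 0 := div_ne_zero hv hb
  have hv' : v = lam * q.den := by rw [hlam]; field_simp
  have hu' : u = lam * q.num := by
    have h1 : u = q * v := by rw [hq]; field_simp
    have h2 : q = q.num / q.den := (Rat.num_div_den q).symm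
    rw [hlam]
    calc u = q * v := h1
      _ = (q.num / q.den) * v := by rw [← h2]
      _ = _ := by ring
  have hloc : ∀ p : ℕ, p.Prime → max (nr p u) (nr p v) = nr p lam := by
    intro p hp
    have := Fact.mk hp
    have hnn : ∀ r : ℚ, 0 ≤ nr p r := by
      intro r; unfold nr; exact_mod_cast padicNorm.nonneg r
    rw [hu', hv', hl_mul hp, hl_mul hp, ← mul_max_of_nonneg _ _ (hnn lam)]
    have hint : ∀ z : ℤ, nr p (z : ℚ) ≤ 1 := by
      intro z; unfold nr; exact_mod_cast padicNorm.of_int z
    have h1 : nr p ((q.num : ℤ) : ℚ) ≤ 1 := hint _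
    have h2 : nr p ((q.den : ℕ) : ℚ) ≤ 1 := by
      have := hint (q.den : ℤ)
      simpa using this
    have h3 : max (nr p ((q.num : ℤ) : ℚ)) (nr p ((q.den : ℕ) : ℚ)) = 1 := by
      apply le_antisymm (max_le h1 h2)
      by_contra hcon
      rw [not_le, max_lt_iff] at hcon
      obtain ⟨c1, c2⟩ := hcon
      have d1 : (p : ℤ) ∣ q.num := by
        rw [← padicNorm.int_lt_one_iff]
        unfold nr at c1
        exact_mod_cast c1
      have d2 : p ∣ q.den := by
        have : padicNorm p ((q.den : ℕ) : ℚ) < 1 := by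
          unfold nr at c2
          exact_mod_cast c2
        exact (padicNorm.nat_lt_one_iff q.den).mp this
      have d1' : p ∣ q.num.natAbs := Int.natCast_dvd.mp d1
      have := Nat.dvd_gcd d1' d2
      rw [q.reduced] at this
      exact hp.one_lt.ne' (Nat.dvd_one.mp this)
    rw [h3, mul_one]
  have hprod := hl_prod hlam0 T hTp (fun p hp hpT => by rw [← hloc p hp]; exact hT p hp hpT)
  have hsum : ∑ p ∈ T, Real.log (max (nr p u) (nr p v)) = ∑ p ∈ T, Real.log (nr p lam) := by
    apply Finset.sum_congr rfl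
    intro p hp
    rw [hloc p (hTp p hp)]
  have hmax : max |(u : ℝ)| |(v : ℝ)| = |(lam : ℝ)| * ((max q.num.natAbs q.den : ℕ) : ℝ) := by
    rw [hu', hv']
    push_cast
    rw [abs_mul, abs_mul, ← mul_max_of_nonneg _ _ (abs_nonneg _)]
    congr 2
    · exact (Nat.cast_natAbs (α := ℝ) q.num).symm ▸ by simp
    · exact abs_of_nonneg (by positivity)
  have hpos : 0 < ((max q.num.natAbs q.den : ℕ) : ℝ) := by
    have : 0 < max q.num.natAbs q.den := lt_max_of_lt_right q.den_pos
    exact_mod_cast this
  have hlampos : 0 < |(lam : ℝ)| := abs_pos.mpr (by exact_mod_cast hlam0)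
  rw [hsum, hmax, Real.log_mul hlampos.ne' hpos.ne']
  unfold hQ
  linarith

end Pool.Agent.Helper42.LS
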