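import Pool.Agent.Helper42.LS.Defs

/-!
# Module RA of the LS project: approximate addition law for two positive points
-/

namespace Pool.Agent.Helper42.LS

/-- the line through the three points -/
theorem ra_line {κ z1 y1 z2 y2 z3 y3 l : ℝ}
    (h1 : y1 ^ 2 = z1 ^ 3 - (2 + κ) * z1 ^ 2 + z1)
    (h2 : y2 ^ 2 = z2 ^ 3 - (2 + κ) * z2 ^ 2 + z2)
    (hl : (z1 ≠ z2 ∧ l * (z1 - z2) = y1 - y2) ∨
      (z1 = z2 ∧ y1 = y2 ∧ l * (2 * y1) = 3 * z1 ^ 2 - 2 * (2 + κ) * z1 + 1))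
    (h3 : z3 = l ^ 2 + (2 + κ) - z1 - z2) (hy3 : y3 = -(l * (z3 - z1) + y1)) :
    ∃ ν : ℝ, y1 = l * z1 + ν ∧ y2 = l * z2 + ν ∧ y3 = -(l * z3 + ν) ∧
      z1 * z2 + z2 * z3 + z1 * z3 = 1 - 2 * l * ν ∧ z1 * z2 * z3 = ν ^ 2 := by
  have key : z1 * z2 + z2 * z3 + z1 * z3 = 1 - 2 * l * (y1 - l * z1) := by
    rcases hl with ⟨hne, hl⟩ | ⟨hz, hy, hl⟩
    · have hne' : z1 - z2 ≠ 0 := sub_ne_zero.mpr hne
      apply mul_left_cancel₀ hne'
      have hy2 : y2 = y1 - l * (z1 - z2) := by linarith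
      rw [hy2] at h2
      rw [h3]
      linear_combination h1 - h2
    · subst hz
      rw [h3]
      linear_combination hl
  refine ⟨y1 - l * z1, by ring, ?_, by rw [hy3]; ring, key, ?_⟩
  · rcases hl with ⟨hne, hl⟩ | ⟨hz, hy, hl⟩
    · linarith
    · subst hz
      linarith
  · have hκ : 2 + κ = z1 + z2 + z3 - l ^ 2 := by linarith
    rw [hκ] at h1
    linear_combination z1 * key - h1

/-- the `x`-coordinate form of the three ordinates -/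
theorem ra_nu {z1 z2 z3 l ν y1 : ℝ} (hy : y1 = l * z1 + ν)
    (hs : z1 * z2 + z2 * z3 + z1 * z3 = 1 - 2 * l * ν) (hp : z1 * z2 * z3 = ν ^ 2) :
    2 * ν * y1 = z1 * (1 + z2 * z3 - z1 * z2 - z1 * z3) := by
  subst hy
  linear_combination z1 * hs - 2 * hp

/-- the sign of the intercept -/
theorem ra_neg {z1 z2 z3 l ν y1 y2 : ℝ} (hz1 : 0 < z1) (hz2 : 0 < z2) (hz3 : 0 < z3)
    (hy1 : y1 = l * z1 + ν) (hy2 : y2 = l * z2 + ν)
    (hs : z1 * z2 + z2 * z3 + z1 * z3 = 1 - 2 * l * ν) (hp : z1 * z2 * z3 = ν ^ 2)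
    (h1 : y1 ≠ 0) (p1 : 0 ≤ (z1 - 1) * y1) (p2 : 0 ≤ (z2 - 1) * y2) :
    ν < 0 := by
  have e1 := ra_nu hy1 hs hp
  have e2 : 2 * ν * y2 = z2 * (1 + z1 * z3 - z2 * z1 - z2 * z3) :=
    ra_nu (z1 := z2) (z2 := z1) hy2 (by linarith) (by linarith)
  have hpos : 0 < z1 * z2 * z3 := by positivity
  have hν : ν ≠ 0 := by
    rintro rfl
    norm_num at hp
    rcases hp with (h | h) | h <;> linarith
  have hid : ν * ((z1 - 1) * y1 * (z2 * (z2 + 1)) + (z2 - 1) * y2 * (z1 * (z1 + 1))) =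
      -(z1 * z2 * ((z1 * z2 - 1) ^ 2 + z3 * (z1 - z2) ^ 2)) := by
    linear_combination (z1 - 1) * z2 * (z2 + 1) / 2 * e1 + (z2 - 1) * z1 * (z1 + 1) / 2 * e2
  have hbr : 0 ≤ (z1 - 1) * y1 * (z2 * (z2 + 1)) + (z2 - 1) * y2 * (z1 * (z1 + 1)) := by
    have : 0 ≤ z2 * (z2 + 1) := by positivity
    have : 0 ≤ z1 * (z1 + 1) := by positivity
    positivity
  have hrhs : 0 < z1 * z2 * ((z1 * z2 - 1) ^ 2 + z3 * (z1 - z2) ^ 2) := by
    have h12 : 0 < z1 * z2 := by positivity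
    apply mul_pos h12
    by_contra hcon
    have ha : 0 ≤ (z1 * z2 - 1) ^ 2 := sq_nonneg _
    have hb : 0 ≤ z3 * (z1 - z2) ^ 2 := by positivity
    have ha' : (z1 * z2 - 1) ^ 2 = 0 := by linarith
    have hb' : z3 * (z1 - z2) ^ 2 = 0 := by linarith
    have hc : z1 = z2 := by
      rcases mul_eq_zero.mp hb' with h | h
      · linarith
      · have := pow_eq_zero_iff (two_ne_zero) |>.mp h
        linarith
    have hd : z1 * z2 = 1 := by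
      have := pow_eq_zero_iff (two_ne_zero) |>.mp ha'
      linarith
    subst hc
    have he : 2 * ν * y1 = 0 := by rw [e1]; linear_combination z1 * (-1) * hd
    have : y1 = 0 := by
      rcases mul_eq_zero.mp he with h | h
      · exact absurd (by linarith) hν
      · exact h
    exact h1 this
  by_contra hge
  have hge : 0 ≤ ν := not_lt.mp hge
  have := mul_nonneg hge hbr
  rw [hid] at this
  linarith

/-- the two addition identities, written with `z_i = e_i ^ 2`, `ν = - e_1 e_2 e_3` -/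
theorem ra_ids {κ l e1 e2 e3 y1 y2 y3 : ℝ} (he1 : 0 < e1) (he2 : 0 < e2) (he3 : 0 < e3)
    (hy1 : y1 = l * e1 ^ 2 + (-(e1 * e2 * e3))) (hy2 : y2 = l * e2 ^ 2 + (-(e1 * e2 * e3)))
    (hy3 : y3 = -(l * e3 ^ 2 + (-(e1 * e2 * e3))))
    (hs : e1 ^ 2 * e2 ^ 2 + e2 ^ 2 * e3 ^ 2 + e1 ^ 2 * e3 ^ 2 = 1 - 2 * l * (-(e1 * e2 * e3)))
    (hκ : κ = e1 ^ 2 + e2 ^ 2 + e3 ^ 2 - 2 - l ^ 2) :
    (e3 - 1 / e3) * ((e2 - 1 / e2) * (e1 + 1 / e1) * (y1 / e1 ^ 2) +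
        (e1 - 1 / e1) * (e2 + 1 / e2) * (y2 / e2 ^ 2)) =
      (e1 - 1 / e1) ^ 2 * (e2 - 1 / e2) ^ 2 + 4 * κ ∧
    (y3 / e3 ^ 2) * ((y1 / e1 ^ 2) * (e2 - 1 / e2) * (e2 + 1 / e2) +
        (y2 / e2 ^ 2) * (e1 - 1 / e1) * (e1 + 1 / e1)) =
      (y1 / e1 ^ 2) ^ 2 * (y2 / e2 ^ 2) ^ 2 - κ * (4 + κ) ∧
    (y3 / e3 ^ 2) ^ 2 = (e3 - 1 / e3) ^ 2 - κ ∧
    (y1 / e1 ^ 2) ^ 2 = (e1 - 1 / e1) ^ 2 - κ ∧
    (y2 / e2 ^ 2) ^ 2 = (e2 - 1 / e2) ^ 2 - κ := by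
  have hl : l = (e1 ^ 2 * e2 ^ 2 + e2 ^ 2 * e3 ^ 2 + e1 ^ 2 * e3 ^ 2 - 1) / (2 * (e1 * e2 * e3)) := by
    field_simp
    linarith
  subst hy1 hy2 hy3
  subst hκ
  subst hl
  refine ⟨?_, ?_, ?_, ?_, ?_⟩ <;> field_simp <;> ring

/-- oriented logarithmic distance in the normalised coordinates -/
noncomputable def raT (s n : ℝ) : ℝ :=
  if 0 ≤ s * n then max 0 (-Real.log (max |s| |n|)) else -(max 0 (-Real.log (max |s| |n|)))

theorem ra_T_of_nonneg {s n : ℝ} (h : 0 ≤ s * n) : raT s n = max 0 (-Real.log (max |s| |n|)) := by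
  simp [raT, h]

theorem ra_Tor {Z Y : ℝ} (hZ : 0 < Z) : Tor Z Y = raT (√Z - 1 / √Z) (Y / Z) := by
  have he : 0 < √Z := Real.sqrt_pos.mpr hZ
  have hee : √Z ^ 2 = Z := Real.sq_sqrt hZ.le
  have h1 : (Z - 1) / √Z = √Z - 1 / √Z := by
    field_simp
    rw [hee]
  have h2 : Msz Z Y = max |√Z - 1 / √Z| |Y / Z| := by
    unfold Msz
    rw [← h1, abs_div, abs_div, abs_of_pos he, abs_of_pos hZ]
  have h3 : (0 ≤ (Z - 1) * Y) ↔ (0 ≤ (√Z - 1 / √Z) * (Y / Z)) := by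
    have : (√Z - 1 / √Z) * (Y / Z) = ((Z - 1) * Y) / (√Z * Z) := by
      rw [← h1]; field_simp
    rw [this]
    have hp : 0 < √Z * Z := by positivity
    constructor
    · intro h; exact div_nonneg h hp.le
    · intro h
      have := mul_nonneg h hp.le
      rwa [div_mul_cancel₀ _ hp.ne'] at this
  unfold Tor raT
  rw [h2]
  simp only [h3]

/-- the conclusion of `ST_RK` for a fixed constant -/
def RaRK (C₀ : ℝ) : Prop := ∀ K θ φ M₁ M₂ m₁ m₂ c₁ c₂ M₃ : ℝ, 0 < K → K ≤ 1 / 10 →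
  3 ≤ θ → θ ≤ 4 → 4 ≤ φ → φ ≤ 5 → 0 ≤ m₁ → 0 ≤ m₂ → M₁ ^ 2 = m₁ ^ 2 + K ^ 2 →
  M₂ ^ 2 = m₂ ^ 2 + K ^ 2 → 0 < M₁ → 0 < M₂ → 2 ≤ c₁ → c₁ ≤ 2 + M₁ → M₁ ≤ c₁ + 1 → 2 ≤ c₂ →
  c₂ ≤ 2 + M₂ → M₂ ≤ c₂ + 1 → 0 < M₁ * m₂ * c₂ + M₂ * m₁ * c₁ →
  M₃ * (M₁ * m₂ * c₂ + M₂ * m₁ * c₁) = M₁ ^ 2 * M₂ ^ 2 + θ * K ^ 2 →
  ∀ s : ℝ, (s = 1 ∨ s = -1) → (m₁ ^ 2 * m₂ ^ 2 < φ * K ^ 2 → s = -1) →
  (φ * K ^ 2 < m₁ ^ 2 * m₂ ^ 2 → s = 1) →
  ∃ m : ℤ, |s * max 0 (-Real.log M₃) - max 0 (-Real.log M₁) - max 0 (-Real.log M₂)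
    - m * (-2 * Real.log K)| ≤ C₀

theorem ra_abs_add {a b c d : ℝ} (hc : 0 ≤ c) (hd : 0 ≤ d) (h : 0 ≤ a * b) :
    |a * c + b * d| = |a| * c + |b| * d := by
  have h' : 0 ≤ (a * c) * (b * d) := by
    have : (a * c) * (b * d) = (a * b) * (c * d) := by ring
    rw [this]
    exact mul_nonneg h (mul_nonneg hc hd)
  have h2 : |a * c + b * d| = |a * c| + |b * d| := by
    rcases le_total 0 (a * c) with ha | ha <;> rcases le_total 0 (b * d) with hb | hb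
    · rw [abs_of_nonneg ha, abs_of_nonneg hb, abs_of_nonneg (add_nonneg ha hb)]
    · have : a * c * (b * d) = 0 := le_antisymm (mul_nonpos_of_nonneg_of_nonpos ha hb) h'
      rcases mul_eq_zero.mp this with h0 | h0 <;> simp [h0]
    · have : a * c * (b * d) = 0 := le_antisymm (mul_nonpos_of_nonpos_of_nonneg ha hb) h'
      rcases mul_eq_zero.mp this with h0 | h0 <;> simp [h0]
    · rw [abs_of_nonpos ha, abs_of_nonpos hb, abs_of_nonpos (add_nonpos ha hb)]; ring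
  rw [h2, abs_mul, abs_mul, abs_of_nonneg hc, abs_of_nonneg hd]

theorem ra_b1 {c s M : ℝ} (hc : 0 ≤ c) (hq : c ^ 2 = s ^ 2 + 4) (hM : s ^ 2 ≤ M ^ 2) :
    c ≤ 2 + |M| := by
  have h1 : (2 + |M|) ^ 2 = 4 + 4 * |M| + M ^ 2 := by
    rw [← sq_abs M]; ring
  have h2 : c ^ 2 ≤ (2 + |M|) ^ 2 := by
    have := abs_nonneg M
    rw [h1, hq]; linarith
  have h3 : 0 ≤ 2 + |M| := by
    have := abs_nonneg M
    linarith
  exact (pow_le_pow_iff_left₀ hc h3 two_ne_zero).mp h2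

theorem ra_b2 {c s M : ℝ} (hc : 0 ≤ c) (hq : c ^ 2 = s ^ 2 + 4) (hM : M ^ 2 ≤ s ^ 2 + 1) :
    |M| ≤ c + 1 := by
  have h2 : |M| ^ 2 ≤ (c + 1) ^ 2 := by
    rw [sq_abs]
    have : (c + 1) ^ 2 = c ^ 2 + 2 * c + 1 := by ring
    rw [this, hq]; linarith
  exact (pow_le_pow_iff_left₀ (abs_nonneg _) (by linarith) two_ne_zero).mp h2

theorem ra_core {C₀ : ℝ} (hC : RaRK C₀) {κ s1 n1 c1 s2 n2 c2 s3 n3 : ℝ} (hκ0 : κ ≠ 0)
    (hκ : |κ| ≤ 1 / 100) (hc1 : 2 ≤ c1) (hc2 : 2 ≤ c2) (hq1 : c1 ^ 2 = s1 ^ 2 + 4)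
    (hq2 : c2 ^ 2 = s2 ^ 2 + 4) (h1 : n1 ^ 2 = s1 ^ 2 - κ) (h2 : n2 ^ 2 = s2 ^ 2 - κ)
    (h3 : n3 ^ 2 = s3 ^ 2 - κ) (hn1 : n1 ≠ 0) (hn2 : n2 ≠ 0)
    (p1 : 0 ≤ s1 * n1) (p2 : 0 ≤ s2 * n2)
    (I1 : s3 * (s2 * c1 * n1 + s1 * c2 * n2) = s1 ^ 2 * s2 ^ 2 + 4 * κ)
    (I2 : n3 * (n1 * s2 * c2 + n2 * s1 * c1) = n1 ^ 2 * n2 ^ 2 - κ * (4 + κ)) :
    ∃ m : ℤ, |raT s3 n3 - raT s1 n1 - raT s2 n2 - m * (-Real.log |κ|)| ≤ C₀ := by
  have hκ' := abs_le.mp hκ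
  have hab : 0 ≤ (s2 * n1) * (s1 * n2) := by
    have : (s2 * n1) * (s1 * n2) = (s1 * n1) * (s2 * n2) := by ring
    rw [this]
    exact mul_nonneg p1 p2
  have hP : |s2 * c1 * n1 + s1 * c2 * n2| = |s2| * |n1| * c1 + |s1| * |n2| * c2 := by
    have := ra_abs_add (a := s2 * n1) (b := s1 * n2) (c := c1) (d := c2) (by linarith)
      (by linarith) hab
    rw [abs_mul, abs_mul] at this
    rw [← this]
    congr 1
    ring
  have hQ : |n1 * s2 * c2 + n2 * s1 * c1| = |s2| * |n1| * c2 + |s1| * |n2| * c1 := by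
    have := ra_abs_add (a := s2 * n1) (b := s1 * n2) (c := c2) (d := c1) (by linarith)
      (by linarith) hab
    rw [abs_mul, abs_mul] at this
    rw [← this]
    congr 1
    ring
  have hnot : ¬ (s1 = 0 ∧ s2 = 0) := by
    rintro ⟨r1, r2⟩
    rw [r1, r2] at I1
    norm_num at I1
    exact hκ0 I1
  have hDpos : ∀ u v : ℝ, 2 ≤ u → 2 ≤ v → 0 < |s2| * |n1| * u + |s1| * |n2| * v := by
    intro u v hu hv
    have e1 : 0 < |n1| := abs_pos.mpr hn1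
    have e2 : 0 < |n2| := abs_pos.mpr hn2
    have e3 : 0 ≤ |s1| := abs_nonneg _
    have e4 : 0 ≤ |s2| := abs_nonneg _
    by_cases hs : s2 = 0
    · have hs1 : s1 ≠ 0 := fun h => hnot ⟨h, hs⟩
      have e5 : 0 < |s1| := abs_pos.mpr hs1
      positivity
    · have e5 : 0 < |s2| := abs_pos.mpr hs
      positivity
  have hPQ : 0 < (s2 * c1 * n1 + s1 * c2 * n2) * (n1 * s2 * c2 + n2 * s1 * c1) := by
    have hexp : (s2 * c1 * n1 + s1 * c2 * n2) * (n1 * s2 * c2 + n2 * s1 * c1) =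
        (s2 * n1) ^ 2 * (c1 * c2) + (s1 * n2) ^ 2 * (c1 * c2) +
          (s2 * n1) * (s1 * n2) * (c1 ^ 2 + c2 ^ 2) := by ring
    rw [hexp]
    have hcc : 0 < c1 * c2 := by positivity
    have t3 : 0 ≤ (s2 * n1) * (s1 * n2) * (c1 ^ 2 + c2 ^ 2) := by positivity
    have t12 : 0 < (s2 * n1) ^ 2 * (c1 * c2) + (s1 * n2) ^ 2 * (c1 * c2) := by
      by_cases hs : s2 = 0
      · have hs1 : s1 ≠ 0 := fun h => hnot ⟨h, hs⟩
        have : 0 < (s1 * n2) ^ 2 := by positivity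
        positivity
      · have : 0 < (s2 * n1) ^ 2 := by positivity
        positivity
    linarith
  have hprod : (s3 * n3) * ((s2 * c1 * n1 + s1 * c2 * n2) * (n1 * s2 * c2 + n2 * s1 * c1)) =
      (s1 ^ 2 * s2 ^ 2 + 4 * κ) * (n1 ^ 2 * n2 ^ 2 - κ * (4 + κ)) := by
    rw [← I1, ← I2]; ring
  have T1 : raT s1 n1 = _ := ra_T_of_nonneg p1
  have T2 : raT s2 n2 = _ := ra_T_of_nonneg p2
  have hT3 : raT s3 n3 = (if 0 ≤ s3 * n3 then (1 : ℝ) else -1) *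
      max 0 (-Real.log (max |s3| |n3|)) := by
    unfold raT
    split_ifs <;> ring
  have hsgn1 : (if 0 ≤ s3 * n3 then (1 : ℝ) else -1) = 1 ∨
      (if 0 ≤ s3 * n3 then (1 : ℝ) else -1) = -1 := by
    split_ifs <;> simp
  have hneg : (s1 ^ 2 * s2 ^ 2 + 4 * κ) * (n1 ^ 2 * n2 ^ 2 - κ * (4 + κ)) < 0 →
      (if 0 ≤ s3 * n3 then (1 : ℝ) else -1) = -1 := by
    intro h
    rw [← hprod] at h
    have : ¬ (0 ≤ s3 * n3) := by
      intro h0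
      have := mul_nonneg h0 hPQ.le
      linarith
    simp [this]
  have hposs : 0 < (s1 ^ 2 * s2 ^ 2 + 4 * κ) * (n1 ^ 2 * n2 ^ 2 - κ * (4 + κ)) →
      (if 0 ≤ s3 * n3 then (1 : ℝ) else -1) = 1 := by
    intro h
    rw [← hprod] at h
    have : 0 ≤ s3 * n3 := by
      by_contra h0
      have := mul_neg_of_neg_of_pos (not_le.mp h0) hPQ
      linarith
    simp [this]
  rcases lt_or_gt_of_ne hκ0 with hk | hk
  · -- κ < 0
    set K : ℝ := √(-κ) with hK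
    have hK2 : K ^ 2 = -κ := Real.sq_sqrt (by linarith)
    have hKpos : 0 < K := Real.sqrt_pos.mpr (by linarith)
    have hK10 : K ≤ 1 / 10 := by
      have : K ^ 2 ≤ (1 / 10) ^ 2 := by rw [hK2]; linarith [hκ'.1]
      exact (pow_le_pow_iff_left₀ hKpos.le (by norm_num) two_ne_zero).mp this
    have hlog : -Real.log |κ| = -2 * Real.log K := by
      have : |κ| = K ^ 2 := by rw [hK2, abs_of_neg hk]
      rw [this, Real.log_pow]; push_cast; ring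
    have hmax : ∀ s n : ℝ, n ^ 2 = s ^ 2 - κ → max |s| |n| = |n| := by
      intro s n h
      apply max_eq_right
      apply sq_le_sq.mp
      linarith
    rw [hT3, T1, T2, hmax s1 n1 h1, hmax s2 n2 h2, hmax s3 n3 h3, hlog]
    have sq1 : |n1| ^ 2 = n1 ^ 2 := sq_abs _
    have sq2 : |n2| ^ 2 = n2 ^ 2 := sq_abs _
    have sq3 : |s1| ^ 2 = s1 ^ 2 := sq_abs _
    have sq4 : |s2| ^ 2 = s2 ^ 2 := sq_abs _
    have e1 : 0 < |n1| := abs_pos.mpr hn1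
    have e2 : 0 < |n2| := abs_pos.mpr hn2
    have hnt : 0 < n1 ^ 2 * n2 ^ 2 - κ * (4 + κ) := by
      have : 0 ≤ n1 ^ 2 * n2 ^ 2 := by positivity
      have : κ * (4 + κ) < 0 := mul_neg_of_neg_of_pos hk (by linarith [hκ'.1])
      linarith
    refine hC K (4 + κ) 4 |n1| |n2| |s1| |s2| c1 c2 |n3| hKpos hK10 (by linarith [hκ'.1])
      (by linarith) le_rfl (by norm_num) (abs_nonneg _) (abs_nonneg _) ?_ ?_ e1 e2 hc1 ?_ ?_ hc2
      ?_ ?_ ?_ ?_ _ hsgn1 ?_ ?_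
    · rw [sq1, sq3, hK2, h1]; ring
    · rw [sq2, sq4, hK2, h2]; ring
    · exact ra_b1 (by linarith) hq1 (by linarith)
    · exact ra_b2 (by linarith) hq1 (by linarith)
    · exact ra_b1 (by linarith) hq2 (by linarith)
    · exact ra_b2 (by linarith) hq2 (by linarith)
    · have := hDpos c2 c1 hc2 hc1
      linarith
    · have hD : |n1| * |s2| * c2 + |n2| * |s1| * c1 = |n1 * s2 * c2 + n2 * s1 * c1| := by
        rw [hQ]; ring
      rw [hD, ← abs_mul, I2, abs_of_pos hnt, sq1, sq2, hK2]; ring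
    · intro h
      apply hneg
      rw [sq3, sq4, hK2] at h
      exact mul_neg_of_neg_of_pos (by linarith) hnt
    · intro h
      apply hposs
      rw [sq3, sq4, hK2] at h
      exact mul_pos (by linarith) hnt
  · -- κ > 0
    set K : ℝ := √κ with hK
    have hK2 : K ^ 2 = κ := Real.sq_sqrt (by linarith)
    have hKpos : 0 < K := Real.sqrt_pos.mpr hk
    have hK10 : K ≤ 1 / 10 := by
      have : K ^ 2 ≤ (1 / 10) ^ 2 := by rw [hK2]; linarith [hκ'.2]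
      exact (pow_le_pow_iff_left₀ hKpos.le (by norm_num) two_ne_zero).mp this
    have hlog : -Real.log |κ| = -2 * Real.log K := by
      have : |κ| = K ^ 2 := by rw [hK2, abs_of_pos hk]
      rw [this, Real.log_pow]; push_cast; ring
    have hmax : ∀ s n : ℝ, n ^ 2 = s ^ 2 - κ → max |s| |n| = |s| := by
      intro s n h
      apply max_eq_left
      apply sq_le_sq.mp
      linarith
    rw [hT3, T1, T2, hmax s1 n1 h1, hmax s2 n2 h2, hmax s3 n3 h3, hlog]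
    have sq1 : |n1| ^ 2 = n1 ^ 2 := sq_abs _
    have sq2 : |n2| ^ 2 = n2 ^ 2 := sq_abs _
    have sq3 : |s1| ^ 2 = s1 ^ 2 := sq_abs _
    have sq4 : |s2| ^ 2 = s2 ^ 2 := sq_abs _
    have e1 : 0 < |s1| := by
      apply abs_pos.mpr
      intro h0
      have h4 := sq_nonneg n1
      rw [h1, h0] at h4
      norm_num at h4
      linarith only [h4, hk]
    have e2 : 0 < |s2| := by
      apply abs_pos.mpr
      intro h0
      have h4 := sq_nonneg n2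
      rw [h2, h0] at h4
      norm_num at h4
      linarith only [h4, hk]
    have hnt : 0 < s1 ^ 2 * s2 ^ 2 + 4 * κ := by
      have : 0 ≤ s1 ^ 2 * s2 ^ 2 := by positivity
      linarith
    refine hC K 4 (4 + κ) |s1| |s2| |n1| |n2| c1 c2 |s3| hKpos hK10 (by norm_num)
      le_rfl (by linarith) (by linarith [hκ'.2]) (abs_nonneg _) (abs_nonneg _) ?_ ?_ e1 e2 hc1 ?_ ?_
      hc2 ?_ ?_ ?_ ?_ _ hsgn1 ?_ ?_
    · rw [sq1, sq3, hK2, h1]; ring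
    · rw [sq2, sq4, hK2, h2]; ring
    · exact ra_b1 (by linarith) hq1 le_rfl
    · exact ra_b2 (by linarith) hq1 (by linarith)
    · exact ra_b1 (by linarith) hq2 le_rfl
    · exact ra_b2 (by linarith) hq2 (by linarith)
    · have := hDpos c1 c2 hc1 hc2
      linarith
    · have hD : |s1| * |n2| * c2 + |s2| * |n1| * c1 = |s2 * c1 * n1 + s1 * c2 * n2| := by
        rw [hP]; ring
      rw [hD, ← abs_mul, I1, abs_of_pos hnt, sq3, sq4, hK2]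
    · intro h
      apply hneg
      rw [sq1, sq2, hK2] at h
      exact mul_neg_of_pos_of_neg hnt (by linarith [mul_comm κ (4 + κ)])
    · intro h
      apply hposs
      rw [sq1, sq2, hK2] at h
      exact mul_pos hnt (by linarith [mul_comm κ (4 + κ)])

/-- RA -/
theorem st_RA (h : ST_RK) : ST_RA := by
  obtain ⟨C₀, hC⟩ := h
  refine ⟨C₀, ?_⟩
  intro κ hκ0 hκ Z₁ Y₁ Z₂ Y₂ Z₃ Y₃ l hZ₁ hZ₂ hZ₃ hbig hY₁ hY₂ hY₃ hc₁ hc₂ hl h3 hy3 p1 p2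
  obtain ⟨ν, a1, a2, a3, hs, hp⟩ := ra_line hc₁ hc₂ hl h3 hy3
  have hν := ra_neg hZ₁ hZ₂ hZ₃ a1 a2 hs hp hY₁ p1 p2
  have t1 := ra_Tor (Y := Y₁) hZ₁
  have t2 := ra_Tor (Y := Y₂) hZ₂
  have t3 := ra_Tor (Y := Y₃) hZ₃
  have he1 : 0 < √Z₁ := Real.sqrt_pos.mpr hZ₁
  have he2 : 0 < √Z₂ := Real.sqrt_pos.mpr hZ₂
  have he3 : 0 < √Z₃ := Real.sqrt_pos.mpr hZ₃
  have q1 : Z₁ = √Z₁ ^ 2 := (Real.sq_sqrt hZ₁.le).symm
  have q2 : Z₂ = √Z₂ ^ 2 := (Real.sq_sqrt hZ₂.le).symm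
  have q3 : Z₃ = √Z₃ ^ 2 := (Real.sq_sqrt hZ₃.le).symm
  generalize √Z₁ = e1 at *
  generalize √Z₂ = e2 at *
  generalize √Z₃ = e3 at *
  subst q1 q2 q3
  have hνe : ν = -(e1 * e2 * e3) := by
    have h1 : (ν - e1 * e2 * e3) * (ν + e1 * e2 * e3) = 0 := by
      linear_combination (-1 : ℝ) * hp
    have h2 : 0 < e1 * e2 * e3 := by positivity
    rcases mul_eq_zero.mp h1 with h | h
    · exfalso; linarith
    · linarith
  subst hνe
  have hκe : κ = e1 ^ 2 + e2 ^ 2 + e3 ^ 2 - 2 - l ^ 2 := by linarith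
  obtain ⟨I1, I2, k3, k1, k2⟩ := ra_ids he1 he2 he3 a1 a2 a3 hs hκe
  rw [t1, t2, t3]
  have amgm : ∀ e : ℝ, 0 < e → 2 ≤ e + 1 / e := by
    intro e he
    have : e + 1 / e - 2 = (e - 1) ^ 2 / e := by field_simp; ring
    have h0 : 0 ≤ (e - 1) ^ 2 / e := by positivity
    linarith
  have hsq : ∀ e : ℝ, 0 < e → (e + 1 / e) ^ 2 = (e - 1 / e) ^ 2 + 4 := by
    intro e he
    field_simp
    ring
  have hsg : ∀ e y : ℝ, 0 < e → 0 ≤ (e ^ 2 - 1) * y → 0 ≤ (e - 1 / e) * (y / e ^ 2) := by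
    intro e y he hy
    have : (e - 1 / e) * (y / e ^ 2) = ((e ^ 2 - 1) * y) / e ^ 3 := by field_simp
    rw [this]
    positivity
  refine ra_core hC hκ0 hκ (amgm e1 he1) (amgm e2 he2) (hsq e1 he1) (hsq e2 he2) k1 k2 k3 ?_ ?_
    (hsg e1 Y₁ he1 p1) (hsg e2 Y₂ he2 p2) I1 I2
  · exact div_ne_zero hY₁ (by positivity)
  · exact div_ne_zero hY₂ (by positivity)

end Pool.Agent.Helper42.LS
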